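import Mathlib
import Pool.Agent.Q95.Prism

/-!
# Least endpoint travel for moving a segment across a prism: the motions `M_θ` are not optimal
-/

open Set
open scoped ENNReal

noncomputable section

namespace Pool.Agent.Results.MP_9fae52_an.ShorterMotion

/-- Euclidean space `ℝ³`. -/
abbrev E3 := EuclideanSpace ℝ (Fin 3)

def A1 : E3 := !₂[0, 0, 0]
def B1 : E3 := !₂[1, 1, 0]
def A2 : E3 := !₂[0, 1, 2]
def B2 : E3 := !₂[1, 0, 2]

/-- `C₁(θ) = (1, cos θ, sin θ)` -/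
def C1 (θ : ℝ) : E3 := !₂[1, Real.cos θ, Real.sin θ]

/-- `C₂(θ) = (0, cos θ, 2 - sin θ)` -/
def C2 (θ : ℝ) : E3 := !₂[0, Real.cos θ, 2 - Real.sin θ]

/-- A motion of the segment from `A₁B₁` to `A₂B₂`. -/
structure IsMotion (A B : ℝ → E3) : Prop where
  contA : ContinuousOn A (Icc 0 1)
  contB : ContinuousOn B (Icc 0 1)
  dist_eq : ∀ t ∈ Icc (0 : ℝ) 1, dist (A t) (B t) = √2
  A_zero : A 0 = A1
  B_zero : B 0 = B1
  A_one : A 1 = A2
  B_one : B 1 = B2

/-- The cost `len A + len B`. -/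
def cost (A B : ℝ → E3) : ℝ≥0∞ := eVariationOn A (Icc 0 1) + eVariationOn B (Icc 0 1)

/-- The shorter great-circle arc from `u` to `v` on the sphere of radius `√2` about `c`. -/
def arc (c u v : E3) : Set E3 :=
  {x | dist x c = √2 ∧ ∃ a b : ℝ, 0 ≤ a ∧ 0 ≤ b ∧ x - c = a • (u - c) + b • (v - c)}

/-- `(A, B)` is the three-stage motion `M_θ` (in some parametrisation). -/
structure IsThreeStage (θ : ℝ) (A B : ℝ → E3) : Prop where
  motion : IsMotion A B
  stages : ∃ t₁ t₂ : ℝ, 0 ≤ t₁ ∧ t₁ ≤ t₂ ∧ t₂ ≤ 1 ∧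
    -- stage 1
    (∀ t ∈ Icc 0 t₁, A t = A1 ∧ B t ∈ arc A1 B1 (C1 θ)) ∧ B t₁ = C1 θ ∧
    -- stage 2
    (∃ a b : ℝ → ℝ, MonotoneOn a (Icc t₁ t₂) ∧ MonotoneOn b (Icc t₁ t₂) ∧
      ∀ t ∈ Icc t₁ t₂, a t ∈ Icc (0 : ℝ) 1 ∧ b t ∈ Icc (0 : ℝ) 1 ∧
        A t = A1 + a t • (C2 θ - A1) ∧ B t = C1 θ + b t • (B2 - C1 θ)) ∧
    A t₂ = C2 θ ∧ B t₂ = B2 ∧
    -- stage 3
    (∀ t ∈ Icc t₂ 1, B t = B2 ∧ A t ∈ arc B2 (C2 θ) A2)

/-- The infimum `I` of the cost over all motions. -/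
def I : ℝ≥0∞ := ⨅ (A : ℝ → E3) (B : ℝ → E3) (_ : IsMotion A B), cost A B

/-- The infimum `m*` of the cost of `M_θ` over the admissible `θ`. -/
def mStar : ℝ≥0∞ := ⨅ (θ : ℝ) (A : ℝ → E3) (B : ℝ → E3) (_ : IsThreeStage θ A B), cost A B

/-! ### Lower bound for the motions `M_θ` -/

open Q95.Prism

lemma norm_sq (x : E3) : ‖x‖ ^ 2 = x 0 ^ 2 + x 1 ^ 2 + x 2 ^ 2 := by
  rw [EuclideanSpace.norm_sq_eq, Fin.sum_univ_three]
  simp

lemma arc_norm {c u v x : E3} (h : x ∈ arc c u v) : ‖x - c‖ ^ 2 = 2 := by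
  rw [← dist_eq_norm, h.1]
  exact Real.sq_sqrt (by norm_num)

lemma three_stage_lower {θ : ℝ} {A B : ℝ → E3} (h : IsThreeStage θ A B) :
    ENNReal.ofReal (1123 / 250) ≤ cost A B := by
  obtain ⟨t₁, t₂, h0, h12, h1, hst1, hB1, ⟨a, b, -, -, hab⟩, hA2, hB2, hst3⟩ := h.stages
  have hm := h.motion
  set s := Real.sin θ with hs
  set c := Real.cos θ with hc
  have hsc : s ^ 2 + c ^ 2 = 1 := Real.sin_sq_add_cos_sq θ
  have hc1 : c ≤ 1 := Real.cos_le_one θ
  have hc0 : -1 ≤ c := Real.neg_one_le_cos θ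
  have hs1 : s ≤ 1 := Real.sin_le_one θ
  set x := √((1 - c) / 2) with hx
  have hx0 : 0 ≤ x := Real.sqrt_nonneg _
  have hx2 : x ^ 2 = (1 - c) / 2 := Real.sq_sqrt (by linarith)
  have hx1 : x ≤ 1 := by nlinarith
  have hcx : c = 1 - 2 * x ^ 2 := by linarith
  have hAt1 : A t₁ = A1 := (hst1 t₁ (right_mem_Icc.mpr h0)).1
  -- stage 2 lengths
  have dB : ENNReal.ofReal √(5 - 4 * s) ≤ eVariationOn B (Icc t₁ t₂) := by
    refine le_trans ?_ (eVariationOn.edist_le B (left_mem_Icc.mpr h12) (right_mem_Icc.mpr h12))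
    rw [edist_dist, dist_eq_norm, hB1, hB2]
    apply ENNReal.ofReal_le_ofReal
    rw [Real.sqrt_le_left (norm_nonneg _), norm_sq]
    simp only [C1, B2, PiLp.sub_apply]
    simp
    nlinarith
  have dA : ENNReal.ofReal √(5 - 4 * s) ≤ eVariationOn A (Icc t₁ t₂) := by
    refine le_trans ?_ (eVariationOn.edist_le A (left_mem_Icc.mpr h12) (right_mem_Icc.mpr h12))
    rw [edist_dist, dist_eq_norm, hAt1, hA2]
    apply ENNReal.ofReal_le_ofReal
    rw [Real.sqrt_le_left (norm_nonneg _), norm_sq]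
    simp only [C2, A1, PiLp.sub_apply]
    simp
    nlinarith
  -- arcs
  have lB : ENNReal.ofReal (2 * x + 3 / 20 * x ^ 3) ≤ eVariationOn B (Icc 0 t₁) := by
    apply sphere_length (c := A1) h0 (hm.contB.mono (Icc_subset_Icc_right (h12.trans h1)))
      (fun t ht => arc_norm (hst1 t ht).2) hx0 hx1
    rw [hm.B_zero, hB1, norm_sq]
    simp only [C1, B1, PiLp.sub_apply]
    simp
    nlinarith
  have lA : ENNReal.ofReal (2 * x + 3 / 20 * x ^ 3) ≤ eVariationOn A (Icc t₂ 1) := by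
    apply sphere_length (c := B2) h1 (hm.contA.mono (Icc_subset_Icc_left (h0.trans h12)))
      (fun t ht => arc_norm (hst3 t ht).2) hx0 hx1
    rw [hm.A_one, hA2, norm_sq]
    simp only [C2, A2, PiLp.sub_apply]
    simp
    nlinarith
  have tB : ENNReal.ofReal ((2 * x + 3 / 20 * x ^ 3) + √(5 - 4 * s)) ≤
      eVariationOn B (Icc 0 1) := by
    rw [ENNReal.ofReal_add (by positivity) (Real.sqrt_nonneg _)]
    have e1 := eVariationOn.Icc_add_Icc B (s := univ) h0 h12 (mem_univ t₁)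
    simp only [univ_inter] at e1
    refine le_trans ?_ (eVariationOn.mono B (Icc_subset_Icc_right h1))
    rw [← e1]
    exact add_le_add lB dB
  have tA : ENNReal.ofReal ((2 * x + 3 / 20 * x ^ 3) + √(5 - 4 * s)) ≤
      eVariationOn A (Icc 0 1) := by
    rw [ENNReal.ofReal_add (by positivity) (Real.sqrt_nonneg _), add_comm]
    have e1 := eVariationOn.Icc_add_Icc A (s := univ) h12 h1 (mem_univ t₂)
    simp only [univ_inter] at e1
    refine le_trans ?_ (eVariationOn.mono A (Icc_subset_Icc_left h0))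
    rw [← e1]
    exact add_le_add dA lA
  -- it is enough to bound the half cost
  suffices hhalf : 1123 / 500 ≤ (2 * x + 3 / 20 * x ^ 3) + √(5 - 4 * s) by
    unfold cost
    have e1 : (1123 / 250 : ℝ) = 1123 / 500 + 1123 / 500 := by norm_num
    rw [e1, ENNReal.ofReal_add (by norm_num) (by norm_num)]
    exact add_le_add ((ENNReal.ofReal_le_ofReal hhalf).trans tA)
      ((ENNReal.ofReal_le_ofReal hhalf).trans tB)
  rcases le_or_gt (1 / 2) s with hs2 | hs2
  · exact main_ineq hx0 hcx hsc hs2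
  rcases le_or_gt s (-1 / 3) with hs3 | hs3
  · have h5 : 1123 / 500 ≤ √(5 - 4 * s) := by
      apply Real.le_sqrt_of_sq_le
      norm_num
      linarith
    have h6 : 0 ≤ 2 * x + 3 / 20 * x ^ 3 := by positivity
    linarith
  exfalso
  have h2s : (2 : ℝ) - s ≠ 0 := by linarith
  have cA : ∀ t ∈ Icc t₁ t₂, a t = A t 2 / (2 - s) := by
    intro t ht
    have e : (A1 + a t • (C2 θ - A1)) 2 = a t * (2 - s) := by
      simp [A1, C2, hs]
    rw [(hab t ht).2.2.1, e]
    exact (mul_div_cancel_right₀ _ h2s).symm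
  have cB : ∀ t ∈ Icc t₁ t₂, b t = (B t 2 - s) / (2 - s) := by
    intro t ht
    have e : (C1 θ + b t • (B2 - C1 θ)) 2 - s = b t * (2 - s) := by
      simp [C1, B2, hs]
    rw [(hab t ht).2.2.2, e]
    exact (mul_div_cancel_right₀ _ h2s).symm
  have hsub : Icc t₁ t₂ ⊆ Icc 0 1 := Icc_subset_Icc h0 h1
  have coA : ContinuousOn a (Icc t₁ t₂) := by
    refine ContinuousOn.congr ?_ cA
    have : ContinuousOn (fun t => A t 2) (Icc t₁ t₂) :=
      (EuclideanSpace.proj (𝕜 := ℝ) (2 : Fin 3)).continuous.comp_continuousOn (hm.contA.mono hsub)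
    exact this.div_const _
  have coB : ContinuousOn b (Icc t₁ t₂) := by
    refine ContinuousOn.congr ?_ cB
    have : ContinuousOn (fun t => B t 2) (Icc t₁ t₂) :=
      (EuclideanSpace.proj (𝕜 := ℝ) (2 : Fin 3)).continuous.comp_continuousOn (hm.contB.mono hsub)
    exact (this.sub continuousOn_const).div_const _
  refine inadmissible h12 hs3 hs2 coA coB (fun t ht => ⟨(hab t ht).1.1, (hab t ht).2.1.1⟩)
    ⟨?_, ?_⟩ ⟨?_, ?_⟩ ?_
  · rw [cA t₁ (left_mem_Icc.mpr h12), hAt1]; simp [A1]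
  · rw [cB t₁ (left_mem_Icc.mpr h12), hB1]; simp [C1, hs]
  · have e : C2 θ 2 = 2 - s := by simp [C2, hs]
    rw [cA t₂ (right_mem_Icc.mpr h12), hA2, e]
    exact div_self h2s
  · have e : B2 2 = 2 := by simp [B2]
    rw [cB t₂ (right_mem_Icc.mpr h12), hB2, e]
    exact div_self h2s
  · intro t ht
    have h5 := hm.dist_eq t (hsub ht)
    have h6 : ‖A t - B t‖ ^ 2 = 2 := by
      rw [← dist_eq_norm, h5]; exact Real.sq_sqrt (by norm_num)
    rw [(hab t ht).2.2.1, (hab t ht).2.2.2, norm_sq] at h6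
    simp only [A1, C1, C2, B2, PiLp.add_apply, PiLp.smul_apply, PiLp.sub_apply] at h6
    simp at h6
    rw [← hs, ← hc] at h6
    have hc2 : c ^ 2 = 1 - s ^ 2 := by linarith
    have h7 : (a t * c - (c + -(b t * c))) ^ 2 = (1 - s ^ 2) * (a t - 1 + b t) ^ 2 := by
      rw [← hc2]; ring
    rw [h7] at h6
    nlinarith [h6]

/-! ### The better motion -/

/-- the great circle through `B₁` and `P` -/
def γ (τ : ℝ) : E3 :=
  !₂[Real.cos τ + Real.sin τ / 3, Real.cos τ - Real.sin τ / 3, 4 / 3 * Real.sin τ]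

/-- the same circle, moved to the sphere about `B₂` -/
def γ' (τ : ℝ) : E3 :=
  !₂[1 - (Real.cos τ + Real.sin τ / 3), Real.cos τ - Real.sin τ / 3, 2 - 4 / 3 * Real.sin τ]

/-- the angle of the first rotation -/
def φ : ℝ := Real.arccos ((2 + 3 * √6) / 10)

/-- the projection of `ℝ` to `[0,1]` -/
def cl (t : ℝ) : ℝ := max 0 (min 1 t)

lemma cl_mono : Monotone cl := fun _ _ h => max_le_max le_rfl (min_le_min le_rfl h)

lemma cl_cont : Continuous cl := by unfold cl; fun_prop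

lemma cl_of_nonpos {t : ℝ} (h : t ≤ 0) : cl t = 0 := by
  unfold cl; rw [min_eq_right (h.trans zero_le_one), max_eq_left h]

lemma cl_of_one_le {t : ℝ} (h : 1 ≤ t) : cl t = 1 := by
  unfold cl; rw [min_eq_left h, max_eq_right zero_le_one]

lemma cl_mem (t : ℝ) : cl t ∈ Icc (0 : ℝ) 1 :=
  ⟨le_max_left _ _, max_le zero_le_one (min_le_left _ _)⟩

/-- `√6` bounds -/
lemma sqrt6 : √6 ^ 2 = 6 ∧ 2.4494 < √6 ∧ √6 < 2.45 := by
  refine ⟨Real.sq_sqrt (by norm_num), ?_, ?_⟩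
  · apply Real.lt_sqrt_of_sq_lt; norm_num
  · rw [Real.sqrt_lt' (by norm_num)]; norm_num

lemma cos_φ : Real.cos φ = (2 + 3 * √6) / 10 := by
  obtain ⟨h1, h2, h3⟩ := sqrt6
  unfold φ
  apply Real.cos_arccos <;> linarith

lemma sin_φ : Real.sin φ = (6 - √6) / 10 := by
  obtain ⟨h1, h2, h3⟩ := sqrt6
  unfold φ
  rw [Real.sin_arccos]
  rw [show 1 - ((2 + 3 * √6) / 10) ^ 2 = ((6 - √6) / 10) ^ 2 by nlinarith]
  exact Real.sqrt_sq (by linarith)

/-- The point `P = γ(φ)`. -/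
def P : E3 := !₂[(6 + 4 * √6) / 15, √6 / 3, (12 - 2 * √6) / 15]

/-- The point `Q = γ'(φ)`. -/
def Q : E3 := !₂[(9 - 4 * √6) / 15, √6 / 3, (18 + 2 * √6) / 15]

lemma γ_φ : γ φ = P := by
  ext i
  fin_cases i <;> simp [γ, P, cos_φ, sin_φ] <;> ring

lemma γ'_φ : γ' φ = Q := by
  ext i
  fin_cases i <;> simp [γ', Q, cos_φ, sin_φ] <;> ring

/-- the moving end point `B` -/
def mB (t : ℝ) : E3 := γ (φ * cl (3 * t)) + bb (cl (3 * t - 1)) • (B2 - P)

/-- the moving end point `A` -/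
def mA (t : ℝ) : E3 :=
  (cl (3 * t - 1) * bb (cl (3 * t - 1))) • Q + (γ' (φ * cl (3 - 3 * t)) - Q)

lemma γ_cont : Continuous γ := by unfold γ; fun_prop

lemma γ'_cont : Continuous γ' := by unfold γ'; fun_prop

lemma mB_cont : Continuous mB := by
  unfold mB
  exact (γ_cont.comp (continuous_const.mul (cl_cont.comp (by fun_prop)))).add
    ((bb_cont.comp (cl_cont.comp (by fun_prop))).smul continuous_const)

lemma mA_cont : Continuous mA := by
  unfold mA
  exact (((cl_cont.comp (by fun_prop)).mul (bb_cont.comp (cl_cont.comp (by fun_prop)))).smul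
    continuous_const).add
    ((γ'_cont.comp (continuous_const.mul (cl_cont.comp (by fun_prop)))).sub continuous_const)

lemma norm_γ (τ : ℝ) : ‖γ τ‖ ^ 2 = 2 := by
  rw [norm_sq]
  simp only [γ]
  simp
  nlinarith [Real.sin_sq_add_cos_sq τ]

lemma norm_γ' (τ : ℝ) : ‖γ' τ - B2‖ ^ 2 = 2 := by
  rw [norm_sq]
  simp only [γ', B2, PiLp.sub_apply]
  simp
  nlinarith [Real.sin_sq_add_cos_sq τ]

/-- stage 1 -/
lemma stage1 {t : ℝ} (ht : t ≤ 1 / 3) : mA t = 0 ∧ mB t = γ (φ * cl (3 * t)) := by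
  unfold mA mB
  rw [cl_of_nonpos (by linarith : 3 * t - 1 ≤ 0), cl_of_one_le (by linarith : 1 ≤ 3 - 3 * t),
    bb_zero, mul_one, γ'_φ]
  simp

/-- stage 2 -/
lemma stage2 {t : ℝ} (ht : 1 / 3 ≤ t) (ht' : t ≤ 2 / 3) :
    mA t = (cl (3 * t - 1) * bb (cl (3 * t - 1))) • Q ∧
    mB t = P + bb (cl (3 * t - 1)) • (B2 - P) := by
  unfold mA mB
  rw [cl_of_one_le (by linarith : 1 ≤ 3 * t), cl_of_one_le (by linarith : 1 ≤ 3 - 3 * t),
    mul_one, γ_φ, γ'_φ]
  simp

/-- stage 3 -/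
lemma stage3 {t : ℝ} (ht : 2 / 3 ≤ t) : mA t = γ' (φ * cl (3 - 3 * t)) ∧ mB t = B2 := by
  unfold mA mB
  rw [cl_of_one_le (by linarith : 1 ≤ 3 * t), cl_of_one_le (by linarith : 1 ≤ 3 * t - 1),
    mul_one, γ_φ, bb_one]
  simp

lemma norm_mid (n : ℝ) : ‖(n * bb n) • Q - (P + bb n • (B2 - P))‖ ^ 2 = 2 := by
  obtain ⟨h1, h2, h3⟩ := sqrt6
  have hb := bb_eq n
  rw [norm_sq]
  set a := n * bb n
  set b := bb n
  simp only [Q, P, B2, PiLp.sub_apply, PiLp.add_apply, PiLp.smul_apply]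
  simp
  linear_combination (-(2 / 45) * a + (2 / 45) * a * b + (1 / 5) * a ^ 2 + 1 / 5 - (2 / 5) * b +
    (1 / 5) * b ^ 2) * h1 + (1 / 3) * hb

lemma isMotion : IsMotion mA mB := by
  refine ⟨mA_cont.continuousOn, mB_cont.continuousOn, ?_, ?_, ?_, ?_, ?_⟩
  · intro t _
    rw [dist_eq_norm]
    have key : ‖mA t - mB t‖ ^ 2 = 2 := by
      rcases le_or_gt t (1 / 3) with h | h
      · rw [(stage1 h).1, (stage1 h).2, zero_sub, norm_neg]
        exact norm_γ _
      rcases le_or_gt t (2 / 3) with h' | h'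
      · rw [(stage2 h.le h').1, (stage2 h.le h').2]
        exact norm_mid _
      · rw [(stage3 h'.le).1, (stage3 h'.le).2]
        exact norm_γ' _
    rw [← key]
    exact (Real.sqrt_sq (norm_nonneg _)).symm
  · rw [(stage1 (by norm_num)).1]
    ext i
    fin_cases i <;> simp [A1]
  · rw [(stage1 (by norm_num)).2, cl_of_nonpos (by norm_num)]
    ext i
    fin_cases i <;> simp [B1, γ]
  · rw [(stage3 (by norm_num)).1, cl_of_nonpos (by norm_num)]
    ext i
    fin_cases i <;> simp [A2, γ']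
  · rw [(stage3 (by norm_num)).2]

/-! ### Its cost -/

lemma lipschitz_γ : LipschitzWith (Real.toNNReal √2) γ := by
  apply LipschitzWith.of_dist_le_mul
  intro x y
  rw [Real.coe_toNNReal _ (Real.sqrt_nonneg _), dist_eq_norm, Real.dist_eq]
  have h1 : ‖γ x - γ y‖ ^ 2 ≤ (√2 * |x - y|) ^ 2 := by
    rw [mul_pow, Real.sq_sqrt (by norm_num), sq_abs, norm_sq]
    simp only [γ, PiLp.sub_apply]
    simp
    have h2 := Real.one_sub_sq_div_two_le_cos (x := x - y)
    rw [Real.cos_sub] at h2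
    nlinarith [Real.sin_sq_add_cos_sq x, Real.sin_sq_add_cos_sq y]
  exact (sq_le_sq₀ (norm_nonneg _) (by positivity)).mp h1

lemma lipschitz_γ' : LipschitzWith (Real.toNNReal √2) (fun r => γ' (-r)) := by
  apply LipschitzWith.of_dist_le_mul
  intro x y
  rw [Real.coe_toNNReal _ (Real.sqrt_nonneg _), dist_eq_norm, Real.dist_eq]
  have h1 : ‖γ' (-x) - γ' (-y)‖ ^ 2 ≤ (√2 * |x - y|) ^ 2 := by
    rw [mul_pow, Real.sq_sqrt (by norm_num), sq_abs, norm_sq]
    simp only [γ', PiLp.sub_apply]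
    simp
    have h2 := Real.one_sub_sq_div_two_le_cos (x := x - y)
    rw [Real.cos_sub] at h2
    nlinarith [Real.sin_sq_add_cos_sq x, Real.sin_sq_add_cos_sq y]
  exact (sq_le_sq₀ (norm_nonneg _) (by positivity)).mp h1

/-- variation of a Lipschitz curve composed with a monotone function -/
lemma var_le {f : ℝ → E3} {K : ℝ} (hf : LipschitzWith (Real.toNNReal K) f)
    {m : ℝ → ℝ} {a b : ℝ} (hab : a ≤ b) (hm : MonotoneOn m (Icc a b)) {X : ℝ → E3}
    (hX : EqOn X (f ∘ m) (Icc a b)) :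
    eVariationOn X (Icc a b) ≤ ENNReal.ofReal K * ENNReal.ofReal (m b - m a) := by
  rw [eVariationOn.congr hX]
  refine (hf.lipschitzOnWith (s := univ)).comp_eVariationOn_le (mapsTo_univ _ _) |>.trans ?_
  apply mul_le_mul' le_rfl
  have := (hm.eVariationOn_eq (left_mem_Icc.mpr hab) (right_mem_Icc.mpr hab)).le
  rwa [inter_self] at this

lemma lipschitz_line (p v : E3) {K : ℝ} (hK : ‖v‖ ≤ K) :
    LipschitzWith (Real.toNNReal K) (fun r : ℝ => p + r • v) := by
  apply LipschitzWith.of_dist_le_mul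
  intro x y
  rw [Real.coe_toNNReal _ ((norm_nonneg _).trans hK), dist_add_left, dist_eq_norm, ← sub_smul,
    norm_smul, Real.dist_eq, mul_comm, Real.norm_eq_abs]
  exact mul_le_mul_of_nonneg_right hK (abs_nonneg _)

lemma norm_Q : ‖Q‖ ≤ √3 := by
  apply Real.le_sqrt_of_sq_le
  rw [norm_sq]
  obtain ⟨h1, h2, h3⟩ := sqrt6
  simp only [Q]
  simp
  nlinarith

lemma norm_B2P : ‖B2 - P‖ ≤ √3 := by
  apply Real.le_sqrt_of_sq_le
  rw [norm_sq]
  obtain ⟨h1, h2, h3⟩ := sqrt6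
  simp only [B2, P, PiLp.sub_apply]
  simp
  nlinarith

lemma φ_nonneg : 0 ≤ φ := Real.arccos_nonneg _

lemma φ_le : φ ≤ 3631 / 10000 := by
  obtain ⟨h1, h2, h3⟩ := sqrt6
  have h4 : Real.cos (3631 / 10000) ≤ Real.cos φ := by
    rw [cos_φ]
    have h5 := Real.cos_bound (x := 3631 / 40000) (by rw [abs_of_pos] <;> norm_num)
    rw [abs_of_pos (by norm_num : (0 : ℝ) < 3631 / 40000)] at h5
    obtain ⟨h6, h7⟩ := abs_le.mp h5
    set y : ℝ := Real.cos (3631 / 40000) with hy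
    have h8 : Real.cos (3631 / 20000) = 2 * y ^ 2 - 1 := by
      rw [hy, ← Real.cos_two_mul]; norm_num
    have h9 : Real.cos (3631 / 10000) = 2 * (2 * y ^ 2 - 1) ^ 2 - 1 := by
      rw [← h8, ← Real.cos_two_mul]; norm_num
    rw [h9]
    have h10 : y ≤ 0.9958836 := by norm_num at h7 ⊢; linarith
    have h11 : 0.99 ≤ y := by norm_num at h6 ⊢; linarith
    have h12 : 2 * y ^ 2 - 1 ≤ 0.9835683 := by norm_num at h10 h11 ⊢; nlinarith
    have h13 : 0 ≤ 2 * y ^ 2 - 1 := by norm_num at h11; nlinarith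
    have h14 : (2 * y ^ 2 - 1) ^ 2 ≤ 0.9835683 ^ 2 := pow_le_pow_left₀ h13 h12 2
    norm_num at h14 h2 ⊢
    linarith
  by_contra h
  push Not at h
  have h15 : Real.cos φ < Real.cos (3631 / 10000) :=
    Real.cos_lt_cos_of_nonneg_of_le_pi (by norm_num) (Real.arccos_le_pi _) h
  linarith

lemma monoB1 : MonotoneOn (fun t => φ * cl (3 * t)) (Icc 0 (1 / 3)) := by
  intro x _ y _ hxy
  exact mul_le_mul_of_nonneg_left (cl_mono (by linarith)) φ_nonneg

lemma monoA3 : MonotoneOn (fun t => -(φ * cl (3 - 3 * t))) (Icc (2 / 3) 1) := by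
  intro x _ y _ hxy
  simp only
  have := mul_le_mul_of_nonneg_left (cl_mono (by linarith : 3 - 3 * y ≤ 3 - 3 * x)) φ_nonneg
  linarith

lemma monob : Monotone (fun t => bb (cl (3 * t - 1))) := by
  intro x y hxy
  exact bb_mono (cl_mem _) (cl_mem _) (cl_mono (by linarith))

lemma bb_nonneg {n : ℝ} (hn : 0 ≤ n) : 0 ≤ bb n := by
  unfold bb
  exact div_nonneg (by linarith) (den_pos n).le

lemma monoa : Monotone (fun t => cl (3 * t - 1) * bb (cl (3 * t - 1))) := by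
  intro x y hxy
  exact mul_le_mul (cl_mono (by linarith)) (monob hxy) (bb_nonneg (cl_mem _).1) (cl_mem _).1

lemma cost_le : cost mA mB ≤ ENNReal.ofReal (8983 / 2000) := by
  have hB1 : eVariationOn mB (Icc 0 (1 / 3)) ≤ ENNReal.ofReal (√2 * φ) := by
    refine (var_le lipschitz_γ (by norm_num) monoB1 (fun t ht => (stage1 ht.2).2)).trans ?_
    rw [← ENNReal.ofReal_mul (Real.sqrt_nonneg _)]
    apply ENNReal.ofReal_le_ofReal
    rw [cl_of_one_le (by norm_num : (1 : ℝ) ≤ 3 * (1 / 3)), cl_of_nonpos (by norm_num)]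
    apply le_of_eq; ring
  have hB2 : eVariationOn mB (Icc (1 / 3) 1) ≤ ENNReal.ofReal √3 := by
    refine (var_le (lipschitz_line P (B2 - P) norm_B2P) (by norm_num) (monob.monotoneOn _)
      (fun t ht => ?_)).trans ?_
    · rcases le_or_gt t (2 / 3) with h | h
      · exact (stage2 ht.1 h).2
      · rw [(stage3 h.le).2]
        simp only [Function.comp]
        rw [cl_of_one_le (by linarith : 1 ≤ 3 * t - 1), bb_one, one_smul]
        abel
    · rw [← ENNReal.ofReal_mul (Real.sqrt_nonneg _)]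
      apply ENNReal.ofReal_le_ofReal
      rw [cl_of_one_le (by norm_num : (1 : ℝ) ≤ 3 * 1 - 1), cl_of_nonpos (by norm_num), bb_one,
        bb_zero]
      apply le_of_eq; ring
  have hA1 : eVariationOn mA (Icc 0 (2 / 3)) ≤ ENNReal.ofReal √3 := by
    refine (var_le (lipschitz_line 0 Q norm_Q) (by norm_num) (monoa.monotoneOn _)
      (fun t ht => ?_)).trans ?_
    · simp only [Function.comp]
      rw [zero_add]
      rcases le_or_gt t (1 / 3) with h | h
      · rw [(stage1 h).1, cl_of_nonpos (by linarith : 3 * t - 1 ≤ 0)]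
        simp
      · exact (stage2 h.le ht.2).1
    · rw [← ENNReal.ofReal_mul (Real.sqrt_nonneg _)]
      apply ENNReal.ofReal_le_ofReal
      rw [cl_of_one_le (by norm_num : (1 : ℝ) ≤ 3 * (2 / 3) - 1), cl_of_nonpos (by norm_num),
        bb_one, bb_zero]
      apply le_of_eq; ring
  have hA2 : eVariationOn mA (Icc (2 / 3) 1) ≤ ENNReal.ofReal (√2 * φ) := by
    refine (var_le lipschitz_γ' (by norm_num) monoA3 (fun t ht => ?_)).trans ?_
    · rw [(stage3 ht.1).1]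
      simp [Function.comp]
    · rw [← ENNReal.ofReal_mul (Real.sqrt_nonneg _)]
      apply ENNReal.ofReal_le_ofReal
      rw [cl_of_one_le (by norm_num : (1 : ℝ) ≤ 3 - 3 * (2 / 3)), cl_of_nonpos (by norm_num)]
      apply le_of_eq; ring
  have eA := eVariationOn.Icc_add_Icc mA (s := univ) (by norm_num : (0 : ℝ) ≤ 2 / 3)
    (by norm_num : (2 / 3 : ℝ) ≤ 1) (mem_univ _)
  have eB := eVariationOn.Icc_add_Icc mB (s := univ) (by norm_num : (0 : ℝ) ≤ 1 / 3)
    (by norm_num : (1 / 3 : ℝ) ≤ 1) (mem_univ _)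
  simp only [univ_inter] at eA eB
  unfold cost
  rw [← eA, ← eB]
  have h1 : √2 ≤ 1.41422 := by rw [Real.sqrt_le_left (by norm_num)]; norm_num
  have h2 : √3 ≤ 1.73206 := by rw [Real.sqrt_le_left (by norm_num)]; norm_num
  calc eVariationOn mA (Icc 0 (2 / 3)) + eVariationOn mA (Icc (2 / 3) 1) +
        (eVariationOn mB (Icc 0 (1 / 3)) + eVariationOn mB (Icc (1 / 3) 1))
      ≤ (ENNReal.ofReal √3 + ENNReal.ofReal (√2 * φ)) +
        (ENNReal.ofReal (√2 * φ) + ENNReal.ofReal √3) :=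
        add_le_add (add_le_add hA1 hA2) (add_le_add hB1 hB2)
    _ = ENNReal.ofReal ((√3 + √2 * φ) + (√2 * φ + √3)) := by
        have := φ_nonneg
        rw [ENNReal.ofReal_add (by positivity) (by positivity),
          ENNReal.ofReal_add (by positivity) (by positivity),
          ENNReal.ofReal_add (by positivity) (by positivity)]
    _ ≤ _ := by
        apply ENNReal.ofReal_le_ofReal
        have h3 : √2 * φ ≤ 1.41422 * (3631 / 10000) :=
          mul_le_mul h1 φ_le φ_nonneg (by norm_num)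
        norm_num at h3 h2 ⊢
        linarith

/-- There is a motion whose cost is strictly less than the cost of every admissible `M_θ`; more
precisely `I ≤ 4.4915 < 4.492 ≤ m*`, so `I ≠ m*`. -/
theorem result :
    (∃ A B : ℝ → E3, IsMotion A B ∧
      ∀ (θ : ℝ) (A' B' : ℝ → E3), IsThreeStage θ A' B' → cost A B < cost A' B') ∧
    I ≤ ENNReal.ofReal 4.4915 ∧ ENNReal.ofReal 4.492 ≤ mStar ∧ I < mStar := by
  have h1 : cost mA mB ≤ ENNReal.ofReal 4.4915 := by
    refine cost_le.trans (ENNReal.ofReal_le_ofReal ?_); norm_num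
  have h2 : ∀ (θ : ℝ) (A' B' : ℝ → E3), IsThreeStage θ A' B' →
      ENNReal.ofReal 4.492 ≤ cost A' B' := by
    intro θ A' B' h
    refine le_trans (ENNReal.ofReal_le_ofReal ?_) (three_stage_lower h); norm_num
  have h3 : ENNReal.ofReal 4.4915 < ENNReal.ofReal 4.492 := by
    rw [ENNReal.ofReal_lt_ofReal_iff (by norm_num)]; norm_num
  have h4 : I ≤ ENNReal.ofReal 4.4915 :=
    (iInf₂_le_of_le mA mB (iInf_le_of_le isMotion le_rfl)).trans h1
  have h5 : ENNReal.ofReal 4.492 ≤ mStar :=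
    le_iInf fun θ => le_iInf fun A' => le_iInf fun B' => le_iInf fun h => h2 θ A' B' h
  exact ⟨⟨mA, mB, isMotion, fun θ A' B' h => h1.trans_lt (h3.trans_le (h2 θ A' B' h))⟩,
    h4, h5, h4.trans_lt (h3.trans_le h5)⟩

end Pool.Agent.Results.MP_9fae52_an.ShorterMotion
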